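import Pool.Agent.DBK.Defs
import Pool.Agent.DBK.Digraph

/-!
# MP_ee37cd_co: the case of digraphs without acyclic sets of size three

For every `Δ ≥ 9`, a finite digraph in which the geometric mean of the in- and out-degree of each
vertex is at most `Δ`, with biclique number at most `Δ - 1`, no subdigraph `H_Δ`, and in which
every acyclic set of vertices has at most two elements, is `(Δ - 1)`-dicolourable.
-/

namespace Pool.Agent.Results.MP_ee37cd_co.AcyclicNumberTwo

open Pool.Agent.DBK

theorem result (Δ : ℕ) (hΔ : 9 ≤ Δ) (V : Type*) [Fintype V] (E : V → V → Prop)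
    (hloop : ∀ v, ¬ E v v)
    (hdeg : ∀ v, Real.sqrt ((outDeg E v : ℝ) * (inDeg E v : ℝ)) ≤ (Δ : ℝ))
    (hω : ∀ S : Finset V, IsBiclique E S → S.card ≤ Δ - 1)
    (hH : ¬ ContainsH E Δ)
    (hα : ∀ A : Finset V, AcyclicOn E (A : Set V) → A.card ≤ 2) :
    Dicolourable E (Δ - 1) := by
  classical
  have hdeg' : ∀ v, outDeg E v * inDeg E v ≤ Δ ^ 2 := by
    intro v
    have h1 := hdeg v
    rw [Real.sqrt_le_left (by positivity)] at h1
    exact_mod_cast h1
  exact main_tilde hΔ hloop hα hdeg' hω hH

end Pool.Agent.Results.MP_ee37cd_co.AcyclicNumberTwo
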